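import Mathlib

/-!
Slabs of the cube (problem MP_66ebcc_gt): the averaging operators and the shape class.
-/

namespace Slab

open MeasureTheory Set

/-- `A x φ s = ∫_{-1}^{1} φ (s - x u) du`. -/
noncomputable def A (x : ℝ) (φ : ℝ → ℝ) (s : ℝ) : ℝ := ∫ u in (-1 : ℝ)..1, φ (s - x * u)

/-- the composition of the operators `A x`, `x ∈ l`: `AL (x :: l) φ = A x (AL l φ)`. -/
noncomputable def AL (l : List ℝ) (φ : ℝ → ℝ) : ℝ → ℝ := l.foldr A φ

theorem AL_nil (φ : ℝ → ℝ) : AL [] φ = φ := rfl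

theorem AL_cons (x : ℝ) (l : List ℝ) (φ : ℝ → ℝ) : AL (x :: l) φ = A x (AL l φ) := rfl

theorem AL_append (l l' : List ℝ) (φ : ℝ → ℝ) : AL (l ++ l') φ = AL l (AL l' φ) := by
  unfold AL; rw [List.foldr_append]

/-- the indicator function of the negative half-line -/
noncomputable def H (s : ℝ) : ℝ := if s < 0 then 1 else 0

/-- The shape class: even continuous functions of compact support and integral zero which on
`[0, ∞)` are first nonpositive, then nonnegative, and unimodal on the nonnegative part. -/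
structure Sh (r : ℝ → ℝ) : Prop where
  cont : Continuous r
  even : ∀ s, r (-s) = r s
  supp : ∃ L : ℝ, ∀ s, L ≤ |s| → r s = 0
  int0 : ∫ s, r s = 0
  shape : ∃ s₁ z : ℝ, 0 ≤ s₁ ∧ s₁ ≤ z ∧ (∀ s, 0 ≤ s → s ≤ s₁ → r s ≤ 0) ∧
    (∀ s, s₁ ≤ s → 0 ≤ r s) ∧ MonotoneOn r (Icc s₁ z) ∧ AntitoneOn r (Ici z)

end Slab
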