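import Pool.Agent.Helper89.Slab.S4b

/-!
Slabs of the cube (problem MP_66ebcc_gt): the basic member of the shape class.
-/

namespace Slab

open MeasureTheory Set intervalIntegral

/-- integral of an even function of compact support -/
theorem base_integral_even {f : ℝ → ℝ} (hf : Continuous f) (he : ∀ s, f (-s) = f s) {L : ℝ}
    (hs : ∀ s, L ≤ |s| → f s = 0) : ∫ s, f s = 2 * ∫ s in (0:ℝ)..L, f s := by
  have h1 : ∫ s in (-L)..L, f s = ∫ s, f s := by
    apply integral_eq_integral_of_support_subset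
    intro s hs'
    rw [Function.mem_support] at hs'
    have : |s| < L := by
      by_contra h
      exact hs' (hs s (not_lt.mp h))
    rw [abs_lt] at this
    exact ⟨this.1, this.2.le⟩
  have h2 : ∫ s in (-L)..0, f s = ∫ s in (0:ℝ)..L, f s := by
    have := intervalIntegral.integral_comp_neg (a := 0) (b := L) (f := f)
    rw [neg_zero] at this
    rw [← this]
    exact intervalIntegral.integral_congr (fun s _ => he s)
  rw [← h1, ← integral_add_adjacent_intervals (hf.intervalIntegrable (-L) 0)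
    (hf.intervalIntegrable 0 L), h2]
  ring

/-- integration by parts -/
theorem base_by_parts {r D : ℝ → ℝ} (h : ∀ s, HasDerivAt r (D s) s) (hD : Continuous D) {L : ℝ}
    (hL : r L = 0) (k : ℕ) :
    ∫ s in (0:ℝ)..L, s ^ k * r s = -(1 / ((k : ℝ) + 1)) * ∫ s in (0:ℝ)..L, s ^ (k + 1) * D s := by
  have hr : Continuous r := continuous_iff_continuousAt.mpr (fun s => (h s).continuousAt)
  have hd : ∀ s : ℝ, HasDerivAt (fun s : ℝ => s ^ (k + 1) * r s)
      (((k : ℝ) + 1) * s ^ k * r s + s ^ (k + 1) * D s) s := by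
    intro s
    have h1 := (hasDerivAt_pow (k + 1) s).fun_mul (h s)
    rw [Nat.add_sub_cancel] at h1
    push_cast at h1
    exact h1
  have e := integral_eq_sub_of_hasDerivAt (a := (0:ℝ)) (b := L)
    (f := fun s : ℝ => s ^ (k + 1) * r s)
    (f' := fun s => ((k : ℝ) + 1) * s ^ k * r s + s ^ (k + 1) * D s) (fun s _ => hd s)
    (Continuous.intervalIntegrable (by fun_prop) _ _)
  rw [intervalIntegral.integral_add (Continuous.intervalIntegrable (by fun_prop) _ _)
    (Continuous.intervalIntegrable (by fun_prop) _ _), hL] at e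
  have e2 : ∫ s in (0:ℝ)..L, ((k : ℝ) + 1) * s ^ k * r s
      = ((k : ℝ) + 1) * ∫ s in (0:ℝ)..L, s ^ k * r s := by
    rw [← intervalIntegral.integral_const_mul]
    congr 1
    ext s
    ring
  rw [e2] at e
  have hk : (k : ℝ) + 1 ≠ 0 := by positivity
  have e3 : (0:ℝ) ^ (k + 1) = 0 := by simp
  rw [e3] at e
  field_simp
  linarith

theorem exists_base {p q p' q' : ℝ} (hq : 0 ≤ q) (hqp : q ≤ p) (hq' : 0 ≤ q') (hqp' : q' ≤ p')
    (hc : p ^ 2 + q ^ 2 = p' ^ 2 + q' ^ 2) (hlt : p * q < p' * q') :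
    ∃ r : ℝ → ℝ, Sh r ∧ (∀ s, HasDerivAt r (A p (A q H) s - A p' (A q' H) s) s) ∧
      0 < (∫ s, s ^ 2 * r s) ∧
      ∫ s, s ^ 4 * r s = 6 / 7 * (p ^ 2 + q ^ 2) * ∫ s, s ^ 2 * r s := by
  have hpq : 0 ≤ p * q := mul_nonneg (hq.trans hqp) hq
  have hpq' : 0 < p' * q' := lt_of_le_of_lt hpq hlt
  have hp' : 0 < p' := by
    rcases lt_or_eq_of_le (hq'.trans hqp') with h | h
    · exact h
    · rw [← h] at hpq'; simp at hpq'
  have hq'0 : 0 < q' := by
    rcases lt_or_eq_of_le hq' with h | h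
    · exact h
    · rw [← h] at hpq'; simp at hpq'
  have hp : 0 < p := by
    rcases lt_or_eq_of_le (hq.trans hqp) with h | h
    · exact h
    · exfalso
      have hq0 : q = 0 := le_antisymm (by rw [h]; exact hqp) hq
      rw [← h, hq0] at hc
      nlinarith [sq_nonneg q', pow_pos hp' 2]
  have c1 : Continuous (A p (A q H)) := AAH_continuous hp hq
  have c2 : Continuous (A p' (A q' H)) := AAH_continuous hp' hq'
  -- the two sums
  have hPP : p + q < p' + q' := by
    have : (p + q) ^ 2 < (p' + q') ^ 2 := by nlinarith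
    exact lt_of_pow_lt_pow_left₀ 2 (by positivity) this
  set L : ℝ := p' + q' with hLdef
  have hL : 0 < L := by positivity
  set D : ℝ → ℝ := fun s => A p (A q H) s - A p' (A q' H) s with hDdef
  have hDc : Continuous D := c1.sub c2
  have hDodd : ∀ s, D (-s) = - D s := by
    intro s
    simp only [hDdef]
    rw [AAH_neg hp hq, AAH_neg hp' hq']
    ring
  have hDee : ∀ s, 0 ≤ s → D s = ee (p' + q') (p' - q') s - ee (p + q) (p - q) s := by
    intro s hs
    simp only [hDdef]
    rw [AAH_eq hp hq hqp hs, AAH_eq hp' hq' hqp' hs]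
    ring
  have hD0 : ∀ s, L ≤ s → D s = 0 := by
    intro s hs
    rw [hDee s (hL.le.trans hs)]
    have a1 : ee (p + q) (p - q) s = 2 := by
      unfold ee
      rw [if_neg (by linarith), if_neg (by linarith)]
    have a2 : ee (p' + q') (p' - q') s = 2 := by
      unfold ee
      rw [if_neg (by linarith)]
      split_ifs with h
      · have : s = p' + q' := le_antisymm h hs
        rw [this]; simp
      · rfl
    rw [a1, a2]; ring
  obtain ⟨z, hz0, hz1, hz2⟩ := ee_sub_sign hq hqp hq' hqp' hc hlt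
  -- the function
  set r : ℝ → ℝ := fun s => ∫ x in L..s, D x with hrdef
  have hr : ∀ s, HasDerivAt r (D s) s := fun s =>
    integral_hasDerivAt_right (hDc.intervalIntegrable _ _)
      (hDc.stronglyMeasurableAtFilter _ _) hDc.continuousAt
  have hrc : Continuous r := continuous_iff_continuousAt.mpr (fun s => (hr s).continuousAt)
  have hr0 : ∀ s, L ≤ s → r s = 0 := by
    intro s hs
    simp only [hrdef]
    rw [intervalIntegral.integral_congr (g := fun _ => (0:ℝ))]
    · simp
    · intro x hx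
      rw [uIcc_of_le hs] at hx
      exact hD0 x hx.1
  have hre : ∀ s, r (-s) = r s := by
    intro s
    have h1 : r (-s) - r s = ∫ x in s..(-s), D x := by
      simp only [hrdef]
      have := integral_add_adjacent_intervals (hDc.intervalIntegrable (μ := volume) L s)
        (hDc.intervalIntegrable s (-s))
      linarith
    have h2 : ∫ x in s..(-s), D x = -∫ x in s..(-s), D x := by
      have h3 := intervalIntegral.integral_comp_neg (a := s) (b := -s) (f := D)
      rw [neg_neg] at h3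
      conv_lhs => rw [← h3]
      rw [← intervalIntegral.integral_neg]
      exact intervalIntegral.integral_congr (fun x _ => hDodd x)
    linarith
  have hrs : ∀ s, L ≤ |s| → r s = 0 := by
    intro s hs
    rcases le_total 0 s with h | h
    · rw [abs_of_nonneg h] at hs
      exact hr0 s hs
    · rw [abs_of_nonpos h] at hs
      rw [← hre s]
      exact hr0 _ hs
  -- moments of D
  obtain ⟨i1, i3, i5⟩ := ee_integral hp hq hqp (L := L) hPP.le
  obtain ⟨j1, j3, j5⟩ := ee_integral hp' hq' hqp' (L := L) le_rfl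
  have mD : ∀ k : ℕ, ∫ s in (0:ℝ)..L, s ^ k * D s =
      (∫ s in (0:ℝ)..L, s ^ k * ee (p' + q') (p' - q') s) -
        ∫ s in (0:ℝ)..L, s ^ k * ee (p + q) (p - q) s := by
    intro k
    have e1 : ∫ s in (0:ℝ)..L, s ^ k * ee (p' + q') (p' - q') s =
        ∫ s in (0:ℝ)..L, s ^ k * (2 - A p' (A q' H) s) := by
      apply intervalIntegral.integral_congr
      intro s hs
      rw [uIcc_of_le hL.le] at hs
      show s ^ k * ee (p' + q') (p' - q') s = s ^ k * (2 - A p' (A q' H) s)
      rw [AAH_eq hp' hq' hqp' hs.1]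
      ring
    have e2 : ∫ s in (0:ℝ)..L, s ^ k * ee (p + q) (p - q) s =
        ∫ s in (0:ℝ)..L, s ^ k * (2 - A p (A q H) s) := by
      apply intervalIntegral.integral_congr
      intro s hs
      rw [uIcc_of_le hL.le] at hs
      show s ^ k * ee (p + q) (p - q) s = s ^ k * (2 - A p (A q H) s)
      rw [AAH_eq hp hq hqp hs.1]
      ring
    rw [e1, e2, ← intervalIntegral.integral_sub
      (Continuous.intervalIntegrable (by fun_prop) _ _)
      (Continuous.intervalIntegrable (by fun_prop) _ _)]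
    apply intervalIntegral.integral_congr
    intro s _
    simp only [hDdef]
    ring
  have i1' : ∫ s in (0:ℝ)..L, s ^ 1 * ee (p + q) (p - q) s = L ^ 2 - (p ^ 2 + q ^ 2) / 3 := by
    simpa using i1
  have j1' : ∫ s in (0:ℝ)..L, s ^ 1 * ee (p' + q') (p' - q') s
      = L ^ 2 - (p' ^ 2 + q' ^ 2) / 3 := by
    simpa using j1
  -- moments of r
  have m0 : ∫ s, r s = 0 := by
    rw [base_integral_even hrc hre hrs]
    have := base_by_parts hr hDc (hr0 L le_rfl) 0
    simp only [pow_zero, one_mul, zero_add] at this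
    rw [this, mD 1, i1', j1', hc]
    ring
  have m2 : ∫ s, s ^ 2 * r s = 4 / 45 * ((p' * q') ^ 2 - (p * q) ^ 2) := by
    rw [base_integral_even (f := fun s => s ^ 2 * r s) (by fun_prop)
      (fun s => by simp only [hre s]; ring) (fun s hs => by simp only [hrs s hs]; ring)]
    rw [base_by_parts hr hDc (hr0 L le_rfl) 2, mD 3, i3, j3]
    push_cast
    have e : p' ^ 2 = p ^ 2 + q ^ 2 - q' ^ 2 := by linarith
    have e4 : p' ^ 4 = (p ^ 2 + q ^ 2 - q' ^ 2) ^ 2 := by rw [← e]; ring
    have e5 : (p' * q') ^ 2 = (p ^ 2 + q ^ 2 - q' ^ 2) * q' ^ 2 := by rw [← e]; ring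
    rw [e4, e5]
    ring
  have m4 : ∫ s, s ^ 4 * r s =
      8 / 105 * (p ^ 2 + q ^ 2) * ((p' * q') ^ 2 - (p * q) ^ 2) := by
    rw [base_integral_even (f := fun s => s ^ 4 * r s) (by fun_prop)
      (fun s => by simp only [hre s]; ring) (fun s hs => by simp only [hrs s hs]; ring)]
    rw [base_by_parts hr hDc (hr0 L le_rfl) 4, mD 5, i5, j5]
    push_cast
    have e : p' ^ 2 = p ^ 2 + q ^ 2 - q' ^ 2 := by linarith
    have e4 : p' ^ 6 = (p ^ 2 + q ^ 2 - q' ^ 2) ^ 3 := by rw [← e]; ring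
    have e5 : (p' * q') ^ 2 = (p ^ 2 + q ^ 2 - q' ^ 2) * q' ^ 2 := by rw [← e]; ring
    rw [e4, e5, e]
    ring
  have hΔ : 0 < (p' * q') ^ 2 - (p * q) ^ 2 := by nlinarith
  -- monotonicity of r
  have hDz1 : ∀ s, 0 ≤ s → s ≤ z → 0 ≤ D s := fun s h1 h2 => by rw [hDee s h1]; exact hz1 s h1 h2
  have hDz2 : ∀ s, z ≤ s → D s ≤ 0 := fun s h1 => by
    rw [hDee s (hz0.trans h1)]; exact hz2 s h1
  have mono : MonotoneOn r (Icc 0 z) := by
    apply monotoneOn_of_deriv_nonneg (convex_Icc 0 z) hrc.continuousOn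
      (fun s _ => (hr s).differentiableAt.differentiableWithinAt)
    intro s hs
    rw [interior_Icc] at hs
    rw [(hr s).deriv]
    exact hDz1 s hs.1.le hs.2.le
  have anti : AntitoneOn r (Ici z) := by
    apply antitoneOn_of_deriv_nonpos (convex_Ici z) hrc.continuousOn
      (fun s _ => (hr s).differentiableAt.differentiableWithinAt)
    intro s hs
    rw [interior_Ici] at hs
    rw [(hr s).deriv]
    exact hDz2 s (le_of_lt hs)
  have hpos : ∀ s, z ≤ s → 0 ≤ r s := by
    intro s hs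
    have h1 : r (max s L) = 0 := hr0 _ (le_max_right _ _)
    rw [← h1]
    exact anti hs (hs.trans (le_max_left _ _)) (le_max_left _ _)
  have hr00 : r 0 ≤ 0 := by
    by_contra hcon
    push Not at hcon
    have hge : ∀ s, 0 ≤ s → 0 ≤ r s := by
      intro s hs
      rcases le_total s z with h | h
      · exact hcon.le.trans (mono ⟨le_rfl, hz0⟩ ⟨hs, h⟩ hs)
      · exact hpos s h
    have h1 : 0 < ∫ s in (0:ℝ)..L, r s :=
      intervalIntegral.integral_pos hL hrc.continuousOn (fun s hs => hge s hs.1.le)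
        ⟨0, ⟨le_rfl, hL.le⟩, hcon⟩
    have h2 := base_integral_even hrc hre hrs
    rw [m0] at h2
    linarith
  have hs1 : ∃ s₁ ∈ Icc (0:ℝ) z, r s₁ = 0 := by
    have := intermediate_value_Icc hz0 hrc.continuousOn (show (0:ℝ) ∈ Icc (r 0) (r z) from
      ⟨hr00, hpos z le_rfl⟩)
    obtain ⟨s, hs, hs'⟩ := this
    exact ⟨s, hs, hs'⟩
  obtain ⟨s₁, ⟨hs10, hs1z⟩, hs1r⟩ := hs1
  refine ⟨r, ⟨hrc, hre, ⟨L, hrs⟩, m0, ⟨s₁, z, hs10, hs1z, ?_, ?_, ?_, anti⟩⟩, hr, ?_, ?_⟩
  · intro s h1 h2
    rw [← hs1r]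
    exact mono ⟨h1, h2.trans hs1z⟩ ⟨hs10, hs1z⟩ h2
  · intro s h1
    rcases le_total s z with h | h
    · rw [← hs1r]
      exact mono ⟨hs10, hs1z⟩ ⟨hs10.trans h1, h⟩ h1
    · exact hpos s h
  · exact mono.mono (Icc_subset_Icc_left hs10)
  · rw [m2]; positivity
  · rw [m2, m4]; ring

end Slab
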