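import Pool.Agent.Helper89.Slab.Tail
import Pool.Agent.Helper28.Slab.Vol
import Pool.Agent.Helper96.Slab.Perm
import Pool.Agent.Helper96.Slab.Reduce

/-!
Slabs of the cube (problem MP_66ebcc_gt): main theorem.
-/

namespace Slab

open MeasureTheory Set

theorem tail_le_unordered {p q p' q' : ℝ} (hp : 0 ≤ p) (hq : 0 ≤ q) (hp' : 0 ≤ p') (hq' : 0 ≤ q')
    (hc : p ^ 2 + q ^ 2 = p' ^ 2 + q' ^ 2) (hlt : p * q < p' * q') (l : List ℝ) {t : ℝ}
    (ht : 0 ≤ t)
    (hb : 5 / 3 * (6 / 7 * (p ^ 2 + q ^ 2) + 2 * (l.map (fun x => x ^ 2)).sum) ≤ t ^ 2) :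
    AL (l ++ [p, q]) H t ≤ AL (l ++ [p', q']) H t := by
  have sw : ∀ x y : ℝ, AL (l ++ [x, y]) H = AL (l ++ [y, x]) H := fun x y =>
    AL_perm (List.Perm.append_left l (List.Perm.swap y x []))
  rcases le_total q p with h | h
  · rcases le_total q' p' with h' | h'
    · exact tail_le hq h hq' h' hc hlt l ht hb
    · rw [sw p' q']
      exact tail_le hq h hp' h' (by linarith) (by linarith [mul_comm p' q']) l ht hb
  · rw [sw p q]
    rcases le_total q' p' with h' | h'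
    · exact tail_le hp h hq' h' (by linarith) (by linarith [mul_comm p q]) l ht
        (by rw [add_comm (q ^ 2)]; exact hb)
    · rw [sw p' q']
      exact tail_le hp h hp' h' (by linarith) (by linarith [mul_comm p q, mul_comm p' q']) l ht
        (by rw [add_comm (q ^ 2)]; exact hb)

theorem tail_ofFn_le (n : ℕ) (hn : 2 ≤ n) (t : ℝ) (ht : 0 ≤ t)
    (htn : 10 / 3 - 40 / (21 * ((n : ℝ) - 1)) ≤ t ^ 2) (a : Fin n → ℝ) (ha : ∑ i, a i ^ 2 = 1) :
    AL (List.ofFn a) H t ≤ AL (List.ofFn (fun _ : Fin n => 1 / Real.sqrt n)) H t := by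
  have hn1 : (0 : ℝ) < (n : ℝ) - 1 := by
    have : (2 : ℝ) ≤ n := by exact_mod_cast hn
    linarith
  have habs : AL (List.ofFn a) H = AL (List.ofFn (fun i => |a i|)) H := by
    rw [← AL_abs (List.ofFn a), List.map_ofFn]
    rfl
  rw [habs]
  refine reduce n hn (fun b => AL (List.ofFn b) H t) ?_ (fun i => |a i|) (fun i => abs_nonneg _)
    (by simpa [sq_abs] using ha)
  intro b hb0 hb1 i j hij x y hx hy hxy hlt hge
  obtain ⟨l, hl⟩ := exists_list b hij
  have h1 := (hl (b i) (b j)).1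
  have h2 := (hl x y).1
  have h3 := (hl x y).2
  rw [Function.update_eq_self, Function.update_eq_self] at h1
  show AL (List.ofFn b) H t ≤ AL (List.ofFn (Function.update (Function.update b i x) j y)) H t
  rw [AL_perm h1, AL_perm h2]
  refine tail_le_unordered (hb0 i) (hb0 j) hx hy hxy.symm hlt l ht ?_
  rw [h3, hb1]
  have e : 40 / (21 * ((n : ℝ) - 1)) = 40 / 21 * (1 / ((n : ℝ) - 1)) := by
    field_simp
  rw [e] at htn
  linarith

theorem slab_le (n : ℕ) (hn : 2 ≤ n) (t : ℝ) (ht : 0 ≤ t)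
    (htn : 10 / 3 - 40 / (21 * ((n : ℝ) - 1)) ≤ t ^ 2) (a : Fin n → ℝ) (ha : ∑ i, a i ^ 2 = 1) :
    volume {x : Fin n → ℝ | (∀ i, |x i| ≤ 1) ∧ |∑ i, (1 / Real.sqrt n) * x i| ≤ t} ≤
      volume {x : Fin n → ℝ | (∀ i, |x i| ≤ 1) ∧ |∑ i, a i * x i| ≤ t} := by
  rw [volume_slab n (fun _ => 1 / Real.sqrt n) t ht, volume_slab n a t ht]
  apply ENNReal.ofReal_le_ofReal
  have := tail_ofFn_le n hn t ht htn a ha
  linarith

end Slab
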