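import Mathlib
import Pool.Agent.Helper76.Slab.AAH

namespace Slab

open MeasureTheory Set

theorem ee_low {P M s : ℝ} (h : s ≤ M) : ee P M s = 4 * s / (P + M) := by
  unfold ee; rw [if_pos h]

theorem ee_mid {P M s : ℝ} (hM : 0 ≤ M) (hP : 0 < P) (hMP : M ≤ P) (h : M ≤ s) (h' : s ≤ P) :
    ee P M s = 2 - 2 * (P - s) ^ 2 / (P ^ 2 - M ^ 2) := by
  unfold ee
  rcases lt_or_eq_of_le h with h1 | h1
  · rw [if_neg (not_le.mpr h1), if_pos h']
  · subst h1
    rw [if_pos le_rfl]
    rcases lt_or_eq_of_le hMP with h2 | h2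
    · have h3 : P ^ 2 - M ^ 2 ≠ 0 := by nlinarith
      have h4 : P + M ≠ 0 := by positivity
      have h5 : P ^ 2 - M ^ 2 = (P - M) * (P + M) := by ring
      have h6 : P - M ≠ 0 := by linarith
      rw [h5]
      field_simp
      ring
    · subst h2
      have h4 : M + M ≠ 0 := by positivity
      have h6 : 4 * M / (M + M) = 2 := by
        rw [div_eq_iff h4]; ring
      rw [h6]
      simp

theorem ee_high {P M s : ℝ} (hM : 0 ≤ M) (hP : 0 < P) (hMP : M ≤ P) (h : P ≤ s) :
    ee P M s = 2 := by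
  rcases lt_or_eq_of_le h with h1 | h1
  · unfold ee
    rw [if_neg (by linarith), if_neg (by linarith)]
  · subst h1
    rw [ee_mid hM hP hMP hMP le_rfl]
    simp

theorem ee_continuous {P M : ℝ} (hM : 0 ≤ M) (hP : 0 < P) (hMP : M ≤ P) :
    Continuous (ee P M) := by
  have h1 : ee P M = fun s => if s ≤ M then 4 * s / (P + M) else
      (if s ≤ P then 2 - 2 * (P - s) ^ 2 / (P ^ 2 - M ^ 2) else 2) := by
    funext s; rfl
  rw [h1]
  refine Continuous.if_le (by fun_prop) ?_ continuous_id continuous_const ?_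
  · refine Continuous.if_le (by fun_prop) continuous_const continuous_id continuous_const ?_
    intro x hx
    have hx : x = P := hx
    subst hx
    simp
  · intro x hx
    have hx' : x = M := hx
    subst hx'
    have h2 := ee_mid hM hP hMP le_rfl hMP
    have h3 : ee P x x = 4 * x / (P + x) := ee_low le_rfl
    rw [if_pos hMP]
    rw [← h3, h2]

theorem ee_sub_sign {p q p' q' : ℝ} (hq : 0 ≤ q) (hqp : q ≤ p) (hq' : 0 ≤ q') (hqp' : q' ≤ p')
    (hc : p ^ 2 + q ^ 2 = p' ^ 2 + q' ^ 2) (hlt : p * q < p' * q') :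
    ∃ z : ℝ, 0 ≤ z ∧ (∀ s, 0 ≤ s → s ≤ z → 0 ≤ ee (p' + q') (p' - q') s - ee (p + q) (p - q) s) ∧
      (∀ s, z ≤ s → ee (p' + q') (p' - q') s - ee (p + q) (p - q) s ≤ 0) := by
  have hq'0 : 0 < q' := by
    rcases lt_or_eq_of_le hq' with h | h
    · exact h
    · subst h
      have : 0 ≤ p * q := mul_nonneg (le_trans hq hqp) hq
      simp at hlt
      linarith
  have hp'0 : 0 < p' := lt_of_lt_of_le hq'0 hqp'
  have hp0 : 0 < p := by
    rcases lt_or_eq_of_le (le_trans hq hqp) with h | h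
    · exact h
    · exfalso
      have h1 : q = 0 := le_antisymm (by linarith) hq
      rw [← h, h1] at hc
      nlinarith [sq_nonneg p', sq_nonneg q', mul_pos hp'0 hq'0]
  obtain ⟨P, hP⟩ : ∃ P, P = p + q := ⟨_, rfl⟩
  obtain ⟨M, hM⟩ : ∃ M, M = p - q := ⟨_, rfl⟩
  obtain ⟨P', hP'⟩ : ∃ P', P' = p' + q' := ⟨_, rfl⟩
  obtain ⟨M', hM'⟩ : ∃ M', M' = p' - q' := ⟨_, rfl⟩
  rw [← hP, ← hM, ← hP', ← hM']
  have hM0 : 0 ≤ M := by rw [hM]; linarith
  have hM'0 : 0 ≤ M' := by rw [hM']; linarith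
  have hP0 : 0 < P := by rw [hP]; linarith
  have hP'0 : 0 < P' := by rw [hP']; linarith
  have hMP : M ≤ P := by rw [hM, hP]; linarith
  have hM'P' : M' < P' := by rw [hM', hP']; linarith
  have hPP' : P < P' := by
    have : P ^ 2 < P' ^ 2 := by rw [hP, hP']; nlinarith
    nlinarith
  have hMM' : M' < M := by
    have : M' ^ 2 < M ^ 2 := by rw [hM, hM']; nlinarith
    nlinarith
  have hsum : P ^ 2 + M ^ 2 = P' ^ 2 + M' ^ 2 := by
    rw [hP, hM, hP', hM']; nlinarith
  have hpp' : p' < p := by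
    have h1 : p * q * (p * q) < p' * q' * (p' * q') := by
      have h0 : 0 ≤ p * q := mul_nonneg hp0.le hq
      nlinarith
    -- p^2 - q^2 > p'^2 - q'^2
    have h2 : (p' ^ 2 - q' ^ 2) < (p ^ 2 - q ^ 2) := by
      have h3 : (p' ^ 2 - q' ^ 2) ^ 2 < (p ^ 2 - q ^ 2) ^ 2 := by
        have e1 : (p' ^ 2 - q' ^ 2) ^ 2 = (p' ^ 2 + q' ^ 2) ^ 2 - 4 * (p' * q' * (p' * q')) := by ring
        have e2 : (p ^ 2 - q ^ 2) ^ 2 = (p ^ 2 + q ^ 2) ^ 2 - 4 * (p * q * (p * q)) := by ring
        rw [e1, e2, hc]; linarith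
      have h4 : 0 ≤ p' ^ 2 - q' ^ 2 := by nlinarith
      have h5 : 0 ≤ p ^ 2 - q ^ 2 := by nlinarith
      nlinarith
    nlinarith
  have hcont : Continuous (fun s => ee P' M' s - ee P M s) :=
    (ee_continuous hM'0 hP'0 hM'P'.le).sub (ee_continuous hM0 hP0 hMP)
  -- constants
  have hQ' : 0 < P' ^ 2 - M' ^ 2 := by nlinarith
  obtain ⟨a, ha⟩ : ∃ a, a = 2 / (P' ^ 2 - M' ^ 2) := ⟨_, rfl⟩
  have ha0 : 0 < a := by rw [ha]; positivity
  have haQ : a * (P' ^ 2 - M' ^ 2) = 2 := by rw [ha]; field_simp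
  obtain ⟨c, hcc⟩ : ∃ c, c = 4 / (P + M) := ⟨_, rfl⟩
  have hPM : 0 < P + M := by linarith
  have hc0 : 0 < c := by rw [hcc]; positivity
  have hcPM : c * (P + M) = 4 := by rw [hcc]; field_simp
  have hP'M' : 0 < P' + M' := by linarith
  have hlow' : ∀ s, s ≤ M' → 0 ≤ s → 0 ≤ ee P' M' s - ee P M s := by
    intro s hs hs0
    rw [ee_low hs, ee_low (by linarith : s ≤ M)]
    have h1 : P' + M' < P + M := by rw [hP, hM, hP', hM']; linarith
    have : 4 * s / (P + M) ≤ 4 * s / (P' + M') :=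
      div_le_div_of_nonneg_left (by linarith) hP'M' h1.le
    linarith
  have hle2 : ∀ s, ee P' M' s ≤ 2 := by
    intro s
    rcases le_total s M' with h | h
    · rw [ee_low h, div_le_iff₀ hP'M']; linarith
    · rcases le_total s P' with h' | h'
      · rw [ee_mid hM'0 hP'0 hM'P'.le h h']
        have : 0 ≤ 2 * (P' - s) ^ 2 / (P' ^ 2 - M' ^ 2) := by positivity
        linarith
      · rw [ee_high hM'0 hP'0 hM'P'.le h']
  have hB : ∀ s, M' ≤ s → s ≤ M → ee P' M' s - ee P M s = 2 - a * (P' - s) ^ 2 - c * s := by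
    intro s h1 h2
    rw [ee_low h2, ee_mid hM'0 hP'0 hM'P'.le h1 (by linarith), ha, hcc]
    ring
  have hBM' : 0 ≤ 2 - a * (P' - M') ^ 2 - c * M' := by
    have := hlow' M' le_rfl hM'0
    rw [hB M' le_rfl hMM'.le] at this
    exact this
  have conc : ∀ u t, M' ≤ u → u ≤ t → 2 - a * (P' - u) ^ 2 - c * u < 0 →
      2 - a * (P' - t) ^ 2 - c * t < 0 := by
    intro u t hu hut h
    have hu' : M' < u := by
      rcases lt_or_eq_of_le hu with h1 | h1
      · exact h1
      · rw [← h1] at h; linarith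
    have key : (2 - a * (P' - t) ^ 2 - c * t) * (u - M') ≤
        (2 - a * (P' - u) ^ 2 - c * u) * (t - M') - (2 - a * (P' - M') ^ 2 - c * M') * (t - u) := by
      have : (2 - a * (P' - u) ^ 2 - c * u) * (t - M') -
          (2 - a * (P' - M') ^ 2 - c * M') * (t - u) - (2 - a * (P' - t) ^ 2 - c * t) * (u - M')
          = a * ((u - M') * (t - u) * (t - M')) := by ring
      have h3 : 0 ≤ a * ((u - M') * (t - u) * (t - M')) := by
        apply mul_nonneg ha0.le
        apply mul_nonneg (mul_nonneg _ _) <;> linarith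
      linarith
    have h4 : (2 - a * (P' - u) ^ 2 - c * u) * (t - M') < 0 :=
      mul_neg_of_neg_of_pos h (by linarith)
    have h5 : 0 ≤ (2 - a * (P' - M') ^ 2 - c * M') * (t - u) := mul_nonneg hBM' (by linarith)
    by_contra hcon
    have h6 : 0 ≤ (2 - a * (P' - t) ^ 2 - c * t) * (u - M') :=
      mul_nonneg (not_lt.mp hcon) (by linarith)
    linarith
  have hCcase : ∀ u t, M ≤ u → u ≤ t → t < P → ee P' M' u - ee P M u ≤ 0 →
      ee P' M' t - ee P M t ≤ 0 := by
    intro u t hu hut ht h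
    have hMPlt : M < P := by linarith
    have hQ : 0 < P ^ 2 - M ^ 2 := by nlinarith
    obtain ⟨b, hb⟩ : ∃ b, b = 2 / (P ^ 2 - M ^ 2) := ⟨_, rfl⟩
    have hab : a ≤ b := by
      rw [ha, hb]
      apply div_le_div_of_nonneg_left (by norm_num) hQ
      nlinarith
    have hC : ∀ s, M ≤ s → s ≤ P → ee P' M' s - ee P M s =
        b * (P - s) ^ 2 - a * (P' - s) ^ 2 := by
      intro s h1 h2
      rw [ee_mid hM0 hP0 hMP h1 h2, ee_mid hM'0 hP'0 hM'P'.le (by linarith) (by linarith), ha, hb]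
      ring
    rw [hC u hu (by linarith)] at h
    rw [hC t (by linarith) ht.le]
    have hCP : b * (P - P) ^ 2 - a * (P' - P) ^ 2 ≤ 0 := by
      have : 0 ≤ a * (P' - P) ^ 2 := by positivity
      simp only [sub_self]
      nlinarith
    have key : (b * (P - t) ^ 2 - a * (P' - t) ^ 2) * (P - u) =
        (b * (P - u) ^ 2 - a * (P' - u) ^ 2) * (P - t) +
        (b * (P - P) ^ 2 - a * (P' - P) ^ 2) * (t - u) - (b - a) * ((t - u) * (P - t) * (P - u)) := by
      ring
    have h1 : (b * (P - u) ^ 2 - a * (P' - u) ^ 2) * (P - t) ≤ 0 :=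
      mul_nonpos_of_nonpos_of_nonneg h (by linarith)
    have h2 : (b * (P - P) ^ 2 - a * (P' - P) ^ 2) * (t - u) ≤ 0 :=
      mul_nonpos_of_nonpos_of_nonneg hCP (by linarith)
    have h3 : 0 ≤ (b - a) * ((t - u) * (P - t) * (P - u)) := by
      apply mul_nonneg (by linarith)
      apply mul_nonneg (mul_nonneg _ _) <;> linarith
    by_contra hcon
    have h4 : 0 < (b * (P - t) ^ 2 - a * (P' - t) ^ 2) * (P - u) :=
      mul_pos (not_le.mp hcon) (by linarith)
    linarith
  have SC : ∀ u t, 0 ≤ u → u ≤ t → ee P' M' u - ee P M u < 0 → ee P' M' t - ee P M t ≤ 0 := by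
    intro u t hu0 hut h
    rcases le_or_gt P t with hPt | hPt
    · rw [ee_high hM0 hP0 hMP hPt]
      linarith [hle2 t]
    · rcases le_or_gt u M' with h1 | h1
      · have := hlow' u h1 hu0
        linarith
      · rcases le_or_gt t M with h2 | h2
        · rw [hB u h1.le (by linarith)] at h
          rw [hB t (by linarith) h2]
          exact (conc u t h1.le hut h).le
        · rcases le_or_gt u M with h3 | h3
          · rw [hB u h1.le h3] at h
            have h4 := conc u M h1.le h3 h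
            rw [← hB M hMM'.le le_rfl] at h4
            exact hCcase M t le_rfl h2.le hPt h4.le
          · exact hCcase u t h3.le hut hPt h.le
  have hDP : ee P' M' P - ee P M P < 0 := by
    rw [ee_high hM0 hP0 hMP le_rfl, ee_mid hM'0 hP'0 hM'P'.le (by linarith) hPP'.le]
    have : 0 < 2 * (P' - P) ^ 2 / (P' ^ 2 - M' ^ 2) := by
      apply div_pos _ hQ'
      have : 0 < P' - P := by linarith
      positivity
    linarith
  obtain ⟨S, hS⟩ : ∃ S : Set ℝ, S = {s | 0 ≤ s ∧ ∀ u, 0 ≤ u → u ≤ s → 0 ≤ ee P' M' u - ee P M u} :=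
    ⟨_, rfl⟩
  have hS0 : (0:ℝ) ∈ S := by
    rw [hS]
    refine ⟨le_rfl, fun u h1 h2 => ?_⟩
    have : u = 0 := le_antisymm h2 h1
    subst this
    exact hlow' 0 hM'0 le_rfl
  have hbdd : BddAbove S := by
    refine ⟨P, fun s hs => ?_⟩
    rw [hS] at hs
    by_contra hcon
    have := hs.2 P hP0.le (not_le.mp hcon).le
    linarith
  refine ⟨sSup S, le_csSup hbdd hS0, ?_, ?_⟩
  · have hlt : ∀ s, 0 ≤ s → s < sSup S → 0 ≤ ee P' M' s - ee P M s := by
      intro s h0 hs
      obtain ⟨s', hs', h1⟩ := exists_lt_of_lt_csSup ⟨0, hS0⟩ hs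
      rw [hS] at hs'
      exact hs'.2 s h0 h1.le
    intro s h0 hs
    rcases lt_or_eq_of_le hs with h | h
    · exact hlt s h0 h
    · rcases lt_or_eq_of_le h0 with h1 | h1
      · -- limit
        have hcl : IsClosed {s | 0 ≤ ee P' M' s - ee P M s} :=
          isClosed_le continuous_const hcont
        have hsub : Ico 0 s ⊆ {s | 0 ≤ ee P' M' s - ee P M s} := by
          intro x hx
          exact hlt x hx.1 (by rw [← h]; exact hx.2)
        have h2 : closure (Ico 0 s) ⊆ {s | 0 ≤ ee P' M' s - ee P M s} :=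
          hcl.closure_subset_iff.mpr hsub
        rw [closure_Ico (ne_of_lt h1)] at h2
        exact h2 ⟨h0, le_rfl⟩
      · rw [← h1]
        exact hlow' 0 hM'0 le_rfl
  · intro s hs
    have hs0 : 0 ≤ s := le_trans (le_csSup hbdd hS0) hs
    rcases lt_or_eq_of_le hs with h | h
    · have hns : s ∉ S := fun hmem => absurd (le_csSup hbdd hmem) (not_le.mpr h)
      rw [hS] at hns
      simp only [mem_ofPred_eq, not_and, not_forall] at hns
      obtain ⟨u, hu0, hus, hu⟩ := hns hs0
      exact SC u s hu0 hus (not_le.mp hu)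
    · -- s = sSup S, limit from the right
      have hcl : IsClosed {s | ee P' M' s - ee P M s ≤ 0} :=
        isClosed_le hcont continuous_const
      have hsub : Ioo s (s + 1) ⊆ {s | ee P' M' s - ee P M s ≤ 0} := by
        intro x hx
        have hx0 : 0 ≤ x := by linarith [hx.1]
        have hns : x ∉ S := fun hmem => absurd (le_csSup hbdd hmem) (not_le.mpr (by rw [h]; exact hx.1))
        rw [hS] at hns
        simp only [mem_ofPred_eq, not_and, not_forall] at hns
        obtain ⟨u, hu0, hus, hu⟩ := hns hx0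
        exact SC u x hu0 hus (not_le.mp hu)
      have h2 : closure (Ioo s (s + 1)) ⊆ {s | ee P' M' s - ee P M s ≤ 0} :=
        hcl.closure_subset_iff.mpr hsub
      rw [closure_Ioo (by linarith)] at h2
      exact h2 ⟨le_rfl, by linarith⟩

theorem ee_integral_aux {p q : ℝ} (hp : 0 < p) (hq : 0 ≤ q) (hqp : q ≤ p) {L : ℝ}
    (hL : p + q ≤ L) (k : ℕ) :
    ∫ s in (0:ℝ)..L, s ^ k * ee (p + q) (p - q) s =
      2 / p * ((p - q) ^ (k + 2) / (k + 2)) +
      (2 * (((p + q) ^ (k + 1) - (p - q) ^ (k + 1)) / (k + 1)) - 1 / (2 * p * q) *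
        ((p + q) ^ 2 * (((p + q) ^ (k + 1) - (p - q) ^ (k + 1)) / (k + 1)) -
          2 * (p + q) * (((p + q) ^ (k + 2) - (p - q) ^ (k + 2)) / (k + 2)) +
          ((p + q) ^ (k + 3) - (p - q) ^ (k + 3)) / (k + 3))) +
      2 * ((L ^ (k + 1) - (p + q) ^ (k + 1)) / (k + 1)) := by
  have hM0 : 0 ≤ p - q := by linarith
  have hP0 : 0 < p + q := by linarith
  have hMP : p - q ≤ p + q := by linarith
  have hcont : Continuous (fun s : ℝ => s ^ k * ee (p + q) (p - q) s) :=
    (continuous_pow k).mul (ee_continuous hM0 hP0 hMP)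
  have hint : ∀ a b : ℝ, IntervalIntegrable (fun s : ℝ => s ^ k * ee (p + q) (p - q) s) volume a b :=
    fun a b => hcont.intervalIntegrable a b
  rw [← intervalIntegral.integral_add_adjacent_intervals (hint 0 (p + q)) (hint (p + q) L),
    ← intervalIntegral.integral_add_adjacent_intervals (hint 0 (p - q)) (hint (p - q) (p + q))]
  have e1 : ∫ s in (0:ℝ)..(p - q), s ^ k * ee (p + q) (p - q) s =
      2 / p * ((p - q) ^ (k + 2) / (k + 2)) := by
    have : ∫ s in (0:ℝ)..(p - q), s ^ k * ee (p + q) (p - q) s =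
        ∫ s in (0:ℝ)..(p - q), 2 / p * s ^ (k + 1) := by
      apply intervalIntegral.integral_congr
      intro s hs
      rw [uIcc_of_le hM0] at hs
      simp only
      rw [ee_low hs.2]
      have : p + q + (p - q) = 2 * p := by ring
      rw [this]
      field_simp
      ring
    rw [this, intervalIntegral.integral_const_mul, integral_pow]
    push_cast
    rw [zero_pow (by omega)]
    ring
  have e2 : ∫ s in (p - q)..(p + q), s ^ k * ee (p + q) (p - q) s =
      (2 * (((p + q) ^ (k + 1) - (p - q) ^ (k + 1)) / (k + 1)) - 1 / (2 * p * q) *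
        ((p + q) ^ 2 * (((p + q) ^ (k + 1) - (p - q) ^ (k + 1)) / (k + 1)) -
          2 * (p + q) * (((p + q) ^ (k + 2) - (p - q) ^ (k + 2)) / (k + 2)) +
          ((p + q) ^ (k + 3) - (p - q) ^ (k + 3)) / (k + 3))) := by
    have : ∫ s in (p - q)..(p + q), s ^ k * ee (p + q) (p - q) s =
        ∫ s in (p - q)..(p + q), (2 * s ^ k - 1 / (2 * p * q) *
          ((p + q) ^ 2 * s ^ k - 2 * (p + q) * s ^ (k + 1) + s ^ (k + 2))) := by
      apply intervalIntegral.integral_congr
      intro s hs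
      rw [uIcc_of_le hMP] at hs
      simp only
      rw [ee_mid hM0 hP0 hMP hs.1 hs.2]
      have : (p + q) ^ 2 - (p - q) ^ 2 = 4 * (p * q) := by ring
      rw [this]
      have h2 : 2 * (p + q - s) ^ 2 / (4 * (p * q)) = 1 / (2 * p * q) * (p + q - s) ^ 2 := by
        rcases eq_or_ne q 0 with h | h
        · simp [h]
        · field_simp
          ring
      rw [h2]
      ring
    rw [this, intervalIntegral.integral_sub, intervalIntegral.integral_const_mul,
      intervalIntegral.integral_const_mul, intervalIntegral.integral_add,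
      intervalIntegral.integral_sub, intervalIntegral.integral_const_mul,
      intervalIntegral.integral_const_mul, integral_pow, integral_pow, integral_pow]
    · push_cast
      ring
    all_goals exact Continuous.intervalIntegrable (by fun_prop) _ _
  have e3 : ∫ s in (p + q)..L, s ^ k * ee (p + q) (p - q) s =
      2 * ((L ^ (k + 1) - (p + q) ^ (k + 1)) / (k + 1)) := by
    have : ∫ s in (p + q)..L, s ^ k * ee (p + q) (p - q) s = ∫ s in (p + q)..L, 2 * s ^ k := by
      apply intervalIntegral.integral_congr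
      intro s hs
      rw [uIcc_of_le hL] at hs
      simp only
      rw [ee_high hM0 hP0 hMP hs.1]
      ring
    rw [this, intervalIntegral.integral_const_mul, integral_pow]
  rw [e1, e2, e3]

theorem ee_integral {p q : ℝ} (hp : 0 < p) (hq : 0 ≤ q) (hqp : q ≤ p) {L : ℝ} (hL : p + q ≤ L) :
    (∫ s in (0:ℝ)..L, s * ee (p + q) (p - q) s = L ^ 2 - (p ^ 2 + q ^ 2) / 3) ∧
    (∫ s in (0:ℝ)..L, s ^ 3 * ee (p + q) (p - q) s =
      L ^ 4 / 2 - ((p ^ 4 + q ^ 4) / 5 + 2 / 3 * (p * q) ^ 2) / 2) ∧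
    (∫ s in (0:ℝ)..L, s ^ 5 * ee (p + q) (p - q) s =
      L ^ 6 / 3 - ((p ^ 6 + q ^ 6) / 7 + (p * q) ^ 2 * (p ^ 2 + q ^ 2)) / 3) := by
  have h1 := ee_integral_aux hp hq hqp hL 1
  have h3 := ee_integral_aux hp hq hqp hL 3
  have h5 := ee_integral_aux hp hq hqp hL 5
  simp only [pow_one] at h1
  rw [h1, h3, h5]
  rcases eq_or_ne q 0 with h | h
  · subst h
    refine ⟨?_, ?_, ?_⟩
    all_goals
      push_cast
      simp only [sub_zero, add_zero, sub_self, zero_div, mul_zero]
      field_simp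
      ring
  · refine ⟨?_, ?_, ?_⟩
    all_goals
      push_cast
      field_simp
      ring

end Slab
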