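import Pool.Agent.Helper89.Slab.Base
import Pool.Agent.Helper98.Slab.Avg
import Pool.Agent.Helper65.Slab.DerivNonpos
import Pool.Agent.Helper85.Slab.Moments
import Pool.Agent.Helper96.Slab.Deriv

/-!
Slabs of the cube (problem MP_66ebcc_gt): comparison of two tails on lists.
-/

namespace Slab

open MeasureTheory Set

theorem continuous_AL {φ : ℝ → ℝ} (h : Continuous φ) (l : List ℝ) : Continuous (AL l φ) := by
  induction l with
  | nil => exact h
  | cons x l ih => rw [AL_cons]; exact continuous_A ih x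

theorem AL_sub {φ ψ : ℝ → ℝ} (hφ : Continuous φ) (hψ : Continuous ψ) (l : List ℝ) :
    AL l (fun s => φ s - ψ s) = fun s => AL l φ s - AL l ψ s := by
  induction l with
  | nil => rfl
  | cons x l ih =>
    rw [AL_cons, ih, A_sub (continuous_AL hφ l) (continuous_AL hψ l)]
    rfl

theorem hasDerivAt_AL {r D : ℝ → ℝ} (h : ∀ s, HasDerivAt r (D s) s) (hD : Continuous D)
    (l : List ℝ) : ∀ s, HasDerivAt (AL l r) (AL l D s) s := by
  induction l with
  | nil => exact h
  | cons x l ih => rw [AL_cons, AL_cons]; exact hasDerivAt_A ih (continuous_AL hD l) x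

theorem Sh.AL {r : ℝ → ℝ} (h : Sh r) (l : List ℝ) : Sh (AL l r) := by
  induction l with
  | nil => exact h
  | cons x l ih => rw [AL_cons]; exact ih.avg x

/-- the moments of `AL l r` -/
theorem moments_AL {r : ℝ → ℝ} (h : Sh r) {β : ℝ} (h2 : 0 < ∫ s, s ^ 2 * r s)
    (h4 : ∫ s, s ^ 4 * r s = β * ∫ s, s ^ 2 * r s) (l : List ℝ) :
    0 < (∫ s, s ^ 2 * Slab.AL l r s) ∧ ∫ s, s ^ 4 * Slab.AL l r s =
      (β + 2 * (l.map (fun x => x ^ 2)).sum) * ∫ s, s ^ 2 * Slab.AL l r s := by
  induction l with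
  | nil => simpa [AL_nil] using ⟨h2, h4⟩
  | cons x l ih =>
    obtain ⟨i2, i4⟩ := ih
    have hS := h.AL l
    obtain ⟨L, hL⟩ := hS.supp
    have e2 := integral_sq_A hS.cont hL x
    have e4 := integral_pow_four_A hS.cont hL x
    rw [hS.int0] at e2 e4
    rw [AL_cons, e2, e4, i4, List.map_cons, List.sum_cons]
    constructor
    · linarith
    · ring

/-- Comparison of the tails for two pairs with the same sum of squares. -/
theorem tail_le {p q p' q' : ℝ} (hq : 0 ≤ q) (hqp : q ≤ p) (hq' : 0 ≤ q') (hqp' : q' ≤ p')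
    (hc : p ^ 2 + q ^ 2 = p' ^ 2 + q' ^ 2) (hlt : p * q < p' * q') (l : List ℝ) {t : ℝ}
    (ht : 0 ≤ t)
    (hb : 5 / 3 * (6 / 7 * (p ^ 2 + q ^ 2) + 2 * (l.map (fun x => x ^ 2)).sum) ≤ t ^ 2) :
    AL (l ++ [p, q]) H t ≤ AL (l ++ [p', q']) H t := by
  obtain ⟨r, hr, hd, h2, h4⟩ := exists_base hq hqp hq' hqp' hc hlt
  have hpq' : 0 < p' * q' := lt_of_le_of_lt (mul_nonneg (hq.trans hqp) hq) hlt
  have hp' : 0 < p' := by
    rcases lt_or_eq_of_le (hq'.trans hqp') with h | h
    · exact h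
    · rw [← h] at hpq'; simp at hpq'
  have hp : 0 < p := by
    rcases lt_or_eq_of_le (hq.trans hqp) with h | h
    · exact h
    · exfalso
      have hq0 : q = 0 := le_antisymm (by rw [h]; exact hqp) hq
      rw [← h, hq0] at hc
      nlinarith [sq_nonneg q', pow_pos hp' 2]
  have c1 : Continuous (A p (A q H)) := AAH_continuous hp hq
  have c2 : Continuous (A p' (A q' H)) := AAH_continuous hp' hq'
  have hS := hr.AL l
  obtain ⟨m2, m4⟩ := moments_AL hr h2 h4 l
  have hD : ∀ s, HasDerivAt (AL l r) (AL l (A p (A q H)) s - AL l (A p' (A q' H)) s) s := by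
    have := hasDerivAt_AL hd (c1.sub c2) l
    intro s
    have e := AL_sub c1 c2 l
    have h3 := this s
    rw [e] at h3
    exact h3
  have key := hS.deriv_nonpos hD m2 (le_of_eq m4) ht (by linarith)
  rw [AL_append, AL_append]
  have e1 : AL [p, q] H = A p (A q H) := rfl
  have e2 : AL [p', q'] H = A p' (A q' H) := rfl
  rw [e1, e2]
  linarith

end Slab
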